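import Pool.Agent.Helper6.TRI.GDefs
import Pool.Agent.Helper42.SQ.GDefs2

/-!
# TRI, sections of degree `d`: the definitions for the Veronese embedding
-/

set_option autoImplicit false

namespace Pool.Agent.TRI

open Module MvPolynomial NumberField
open Pool.Agent.Helper64.Vojta (Pl nv sn above)
open Pool.Agent.Chart (fld dg crd hgt val lam)

universe u

/-- the coordinates of the Veronese image -/
def ver {K : Type*} [CommRing K] {N N' d : ℕ} (e : Fin (N' + 1) ≃ Sym (Fin (N + 1)) d) (x : Fin (N + 1) → K) : Fin (N' + 1) → K :=
  fun i => ((e i : Multiset (Fin (N + 1))).map x).prod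

/-- the value of a form of degree `d` -/
noncomputable def valS {k : Type u} [Field k] [NumberField k] {N d : ℕ} (g : Sym (Fin N) d → k) (x : Fin N → AlgebraicClosure k) : fld x :=
  ∑ s, algebraMap k (fld x) (g s) * ((s : Multiset (Fin N)).map (crd x)).prod

/-- its Weil function -/
noncomputable def lamS {k : Type u} [Field k] [NumberField k] {N d : ℕ} (g : Sym (Fin N) d → k) (ν : Pl k)
    (x : Fin N → AlgebraicClosure k) : ℝ :=
  (∑ w ∈ above (fld x) ν, (d * Real.log (sn w (crd x)) - Real.log (nv w (valS g x)))) / dg x

end Pool.Agent.TRI
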