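import Pool.Agent.Helper6.TRI.GDefs
import Pool.Agent.Helper42.SQ.GDefs2
import Pool.Agent.Helper17.EXP.UnitsPlus
import Pool.Agent.Helper52.Vojta.BaseChange

/-!
# TRI, second version, S5: normalised Weil functions
-/

set_option autoImplicit false

namespace Pool.Agent.TRI

open Module MvPolynomial NumberField Filter
open Pool.Agent.Helper64.Vojta (Pl nv sn above nv_mul nv_nonneg nv_pos nv_one nv_inv le_sn sn_pos)
open Pool.Agent.Chart (fld dg crd hgt val lam)

universe u

/-- the Weil function of the hyperplane, normalised -/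
noncomputable def lamN {k : Type u} [Field k] [NumberField k] {N : ℕ} (l : Fin (N + 1) → k) (ν : Pl k)
    (x : Fin (N + 1) → AlgebraicClosure k) : ℝ := Real.log (⨆ j, nv ν (l j)) + lam l ν x

private theorem sn_smul {k : Type*} [Field k] [NumberField k] {m : ℕ} (ν : Pl k) (c : k) (l : Fin m → k) :
    sn ν (fun j => c * l j) = nv ν c * sn ν l := by
  unfold sn
  simp only [nv_mul]
  rw [Real.mul_iSup_of_nonneg (nv_nonneg ν c)]

theorem lamN_smul {k : Type u} [Field k] [NumberField k] {N : ℕ} (l : Fin (N + 1) → k) (c : k) (hc : c ≠ 0) (ν : Pl k)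
    (x : Fin (N + 1) → AlgebraicClosure k) (hx : val l x ≠ 0) : lamN (fun j => c * l j) ν x = lamN l ν x := by
  have hl : l ≠ 0 := by
    rintro rfl
    apply hx
    unfold val
    simp
  have hv : val (fun j => c * l j) x = algebraMap k (fld x) c * val l x := by
    unfold val
    rw [Finset.mul_sum]
    exact Finset.sum_congr rfl fun j _ => by rw [map_mul, mul_assoc]
  have hc' : algebraMap k (fld x) c ≠ 0 := (map_ne_zero _).2 hc
  have hdg : (dg x : ℝ) ≠ 0 := by
    have h1 : 0 < dg x := Module.finrank_pos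
    exact_mod_cast h1.ne'
  have h2 : Real.log (⨆ j, nv ν (c * l j)) = Real.log (nv ν c) + Real.log (⨆ j, nv ν (l j)) := by
    change Real.log (sn ν fun j => c * l j) = Real.log (nv ν c) + Real.log (sn ν l)
    rw [sn_smul, Real.log_mul (nv_pos ν hc).ne' (sn_pos ν hl).ne']
  have h3 : lam (fun j => c * l j) ν x = lam l ν x - Real.log (nv ν c) := by
    unfold lam
    rw [hv]
    have h4 : ∑ w ∈ above (fld x) ν, (Real.log (sn w (crd x)) -
        Real.log (nv w (algebraMap k (fld x) c * val l x))) =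
        ∑ w ∈ above (fld x) ν, (Real.log (sn w (crd x)) - Real.log (nv w (val l x))) -
          dg x * Real.log (nv ν c) := by
      have h5 : (dg x : ℝ) * Real.log (nv ν c) =
          ∑ w ∈ above (fld x) ν, Real.log (nv w (algebraMap k (fld x) c)) :=
        (Pool.Agent.Helper52.Vojta.sum_log_nv ν c).symm
      rw [h5, ← Finset.sum_sub_distrib]
      refine Finset.sum_congr rfl fun w _ => ?_
      rw [nv_mul, Real.log_mul (nv_pos w hc').ne' (nv_pos w hx).ne']
      ring
    rw [h4, sub_div, mul_div_cancel_left₀ _ hdg]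
  unfold lamN
  rw [h2, h3]
  ring

theorem lamN_le {k : Type u} [Field k] [NumberField k] {N : ℕ} (S : Finset (Pl k)) (t : k) (ht : t ≠ 0) :
    ∃ C : ℝ, ∀ l : Fin (N + 1) → k, (∃ j, l j = t) → ∀ x : Fin (N + 1) → AlgebraicClosure k,
      ∑ ν ∈ S, lamN l ν x ≤ Height.logHeight l + C + ∑ ν ∈ S, lam l ν x := by
  refine ⟨∑ ν ∈ S, Real.log (nv ν t), fun l hl x => ?_⟩
  obtain ⟨j, hj⟩ := hl
  have hl0 : l ≠ 0 := by
    rintro rfl
    exact ht hj.symm
  have ht' : t⁻¹ ≠ 0 := inv_ne_zero ht
  have hz0 : (fun i => t⁻¹ * l i) ≠ 0 := by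
    intro h0
    have h1 := congrFun h0 j
    simp only [hj, inv_mul_cancel₀ ht] at h1
    exact one_ne_zero h1
  have h1 : ∀ w, 1 ≤ sn w (fun i => t⁻¹ * l i) := by
    intro w
    refine le_trans (le_of_eq ?_) (le_sn w (fun i => t⁻¹ * l i) j)
    rw [hj, inv_mul_cancel₀ ht, nv_one]
  have h2 := Pool.Agent.EXP.sum_le_logHeight hz0 h1 S
  have h3 : Height.logHeight (fun i => t⁻¹ * l i) = Height.logHeight l := by
    have h4 := Height.logHeight_smul_eq_logHeight l ht'
    exact h4
  rw [h3] at h2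
  have h5 : ∑ ν ∈ S, Real.log (sn ν (fun i => t⁻¹ * l i)) =
      ∑ ν ∈ S, Real.log (⨆ i, nv ν (l i)) - ∑ ν ∈ S, Real.log (nv ν t) := by
    rw [← Finset.sum_sub_distrib]
    refine Finset.sum_congr rfl fun ν _ => ?_
    rw [sn_smul, Real.log_mul (nv_pos ν ht').ne' (sn_pos ν hl0).ne', nv_inv, Real.log_inv]
    unfold sn
    ring
  rw [h5] at h2
  unfold lamN
  rw [Finset.sum_add_distrib]
  linarith

end Pool.Agent.TRI
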