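import Pool.Agent.Helper29.TRI.VDefs

/-!
# TRI, V2: degrees, heights and Weil functions of the Veronese image
-/

set_option autoImplicit false

namespace Pool.Agent.TRI

open Module NumberField IntermediateField
open Pool.Agent.Helper64.Vojta
open Pool.Agent.Chart (fld dg crd hgt val lam H V Lm H_congr V_congr Lm_congr)

universe u

section

variable {L : Type*} [Field L] [NumberField L]

private theorem nv_prod (w : Pl L) {ι : Type*} (m : Multiset ι) (x : ι → L) :
    nv w (m.map x).prod = (m.map fun i => nv w (x i)).prod := by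
  induction m using Multiset.induction_on with
  | empty => rw [Multiset.map_zero, Multiset.map_zero, Multiset.prod_zero, Multiset.prod_zero, nv_one]
  | cons a m ih =>
    rw [Multiset.map_cons, Multiset.map_cons, Multiset.prod_cons, Multiset.prod_cons, nv_mul, ih]

private theorem prod_le {ι : Type*} (m : Multiset ι) (f : ι → ℝ) (B : ℝ) (h0 : ∀ i, 0 ≤ f i)
    (hB : ∀ i, f i ≤ B) : 0 ≤ (m.map f).prod ∧ (m.map f).prod ≤ B ^ m.card := by
  induction m using Multiset.induction_on with
  | empty => simp
  | cons a m ih =>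
    rw [Multiset.map_cons, Multiset.prod_cons, Multiset.card_cons, pow_succ']
    exact ⟨mul_nonneg (h0 a) ih.1, mul_le_mul (hB a) ih.2 ih.1 ((h0 a).trans (hB a))⟩

private theorem sn_ver {N N' d : ℕ} (e : Fin (N' + 1) ≃ Sym (Fin (N + 1)) d) (w : Pl L)
    (z : Fin (N + 1) → L) : sn w (ver e z) = sn w z ^ d := by
  have hsn0 : 0 ≤ sn w z := (nv_nonneg w (z 0)).trans (le_sn w z 0)
  apply le_antisymm
  · refine sn_le w _ _ (pow_nonneg hsn0 _) fun i => ?_
    have h1 := (prod_le (e i : Multiset (Fin (N + 1))) (fun j => nv w (z j)) (sn w z)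
      (fun j => nv_nonneg w _) (fun j => le_sn w z j)).2
    rw [← nv_prod, Sym.card_coe] at h1
    exact h1
  · obtain ⟨j, hj⟩ : ∃ j, nv w (z j) = sn w z := exists_eq_ciSup_of_finite
    have h1 := le_sn w (ver e z) (e.symm (Sym.replicate d j))
    refine le_trans (le_of_eq ?_) h1
    unfold ver
    rw [Equiv.apply_symm_apply, nv_prod, Sym.coe_replicate, Multiset.map_replicate,
      Multiset.prod_replicate, hj]

end

theorem ver_ar {k : Type u} [Field k] [NumberField k] {N N' d : ℕ} (hd : 1 ≤ d) (e : Fin (N' + 1) ≃ Sym (Fin (N + 1)) d)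
    (x : Fin (N + 1) → AlgebraicClosure k) (h1 : ∃ j, x j = 1) :
    (∃ i, ver e x i = 1) ∧ dg (ver e x) = dg x ∧ hgt (ver e x) = d * hgt x ∧
      ∀ g : Sym (Fin (N + 1)) d → k, (val (fun i => g (e i)) (ver e x) = 0 ↔ valS g x = 0) ∧
        ∀ ν, lam (fun i => g (e i)) ν (ver e x) = lamS g ν x := by
  classical
  obtain ⟨j, hj⟩ := h1
  -- the field
  have hfld : fld (ver e x) = fld x := by
    unfold fld
    apply le_antisymm
    · rw [adjoin_le_iff]
      rintro _ ⟨i, rfl⟩
      change ((e i : Multiset (Fin (N + 1))).map x).prod ∈ adjoin k (Set.range x)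
      refine Subalgebra.multiset_prod_mem (adjoin k (Set.range x)).toSubalgebra (fun y hy => ?_)
      obtain ⟨a, -, rfl⟩ := Multiset.mem_map.1 hy
      exact subset_adjoin k _ (Set.mem_range_self a)
    · rw [adjoin_le_iff]
      rintro _ ⟨i, rfl⟩
      obtain ⟨d, rfl⟩ : ∃ d', d = d' + 1 := ⟨d - 1, by omega⟩
      have h2 : x i = ver e x (e.symm (i ::ₛ Sym.replicate d j)) := by
        change x i = ((e (e.symm (i ::ₛ Sym.replicate d j)) : Multiset (Fin (N + 1))).map x).prod
        rw [Equiv.apply_symm_apply, Sym.coe_cons, Multiset.map_cons, Multiset.prod_cons,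
          Sym.coe_replicate, Multiset.map_replicate, Multiset.prod_replicate, hj, one_pow, mul_one]
      rw [h2]
      exact subset_adjoin k _ (Set.mem_range_self _)
  have hcrd : ∀ i, ((crd (ver e x) i : fld (ver e x)) : AlgebraicClosure k) = (ver e (crd x) i : fld x) := by
    intro i
    change ((e i : Multiset (Fin (N + 1))).map x).prod =
      ((((e i : Multiset (Fin (N + 1))).map (crd x)).prod : fld x) : AlgebraicClosure k)
    have h2 : ∀ m : Multiset (Fin (N + 1)), (m.map x).prod =
        (((m.map (crd x)).prod : fld x) : AlgebraicClosure k) := by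
      intro m
      induction m using Multiset.induction_on with
      | empty => rfl
      | cons a m ih =>
        rw [Multiset.map_cons, Multiset.map_cons, Multiset.prod_cons, Multiset.prod_cons, ih]
        rfl
    exact h2 _
  have hcrd0 : crd x ≠ 0 := by
    intro h0
    have h2 : ((crd x j : fld x) : AlgebraicClosure k) = x j := rfl
    rw [h0, hj] at h2
    exact zero_ne_one h2
  have hver0 : ver e (crd x) ≠ 0 := by
    intro h0
    have h2 : ver e (crd x) (e.symm (Sym.replicate d j)) = (crd x j) ^ d := by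
      unfold ver
      rw [Equiv.apply_symm_apply, Sym.coe_replicate, Multiset.map_replicate,
        Multiset.prod_replicate]
    rw [h0] at h2
    have h3 : crd x j = 1 := Subtype.ext hj
    rw [h3, one_pow] at h2
    exact zero_ne_one h2
  have hval : ∀ g : Sym (Fin (N + 1)) d → k, V (fld x) (fun i => g (e i)) (ver e (crd x)) = valS g x := by
    intro g
    unfold V valS
    rw [← Equiv.sum_comp e]
    rfl
  refine ⟨⟨e.symm (Sym.replicate d j), ?_⟩, ?_, ?_, fun g => ⟨?_, fun ν => ?_⟩⟩
  · unfold ver
    rw [Equiv.apply_symm_apply, Sym.coe_replicate, Multiset.map_replicate, Multiset.prod_replicate,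
      hj, one_pow]
  · unfold dg
    rw [hfld]
  · have h2 : hgt (ver e x) = H _ (crd (ver e x)) := rfl
    have h3 : hgt x = H _ (crd x) := rfl
    rw [h2, h3, H_congr _ _ hfld _ _ hcrd]
    unfold H
    rw [logHeight_eq hver0, logHeight_eq hcrd0]
    simp only [sn_ver, Real.log_pow]
    rw [← Finset.mul_sum, ← mul_finsum]
    ring
  · have h2 := V_congr _ _ hfld (fun i => g (e i)) _ _ hcrd
    rw [hval] at h2
    exact h2
  · have h2 : lam (fun i => g (e i)) ν (ver e x) = Lm _ (fun i => g (e i)) ν (crd (ver e x)) := rfl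
    rw [h2, Lm_congr _ _ hfld _ _ _ _ hcrd]
    unfold Lm lamS
    rw [hval]
    simp only [sn_ver, Real.log_pow]
    rfl

end Pool.Agent.TRI
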