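import Pool.Agent.Helper29.TRI.VDefs

/-!
# TRI, V3: the Veronese map is finite to one
-/

set_option autoImplicit false

namespace Pool.Agent.TRI

theorem ver_fin {K : Type*} [Field K] {N N' d : ℕ} (hd : 1 ≤ d) (e : Fin (N' + 1) ≃ Sym (Fin (N + 1)) d)
    (T : Set (Fin (N' + 1) → K)) (hT : T.Finite) :
    {x : Fin (N + 1) → K | (∃ j, x j = 1) ∧ ver e x ∈ T}.Finite := by
  classical
  obtain ⟨d, rfl⟩ : ∃ d', d = d' + 1 := ⟨d - 1, by omega⟩
  -- the coordinates from the image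
  let F : Fin (N + 1) × (Fin (N' + 1) → K) → (Fin (N + 1) → K) := fun p i =>
    p.2 (e.symm (i ::ₛ Sym.replicate d p.1))
  have h1 : {x : Fin (N + 1) → K | (∃ j, x j = 1) ∧ ver e x ∈ T} ⊆
      F '' ((Set.univ : Set (Fin (N + 1))) ×ˢ T) := by
    rintro x ⟨⟨j, hj⟩, hx⟩
    refine ⟨(j, ver e x), ⟨Set.mem_univ _, hx⟩, ?_⟩
    funext i
    change ((e (e.symm (i ::ₛ Sym.replicate d j)) : Multiset (Fin (N + 1))).map x).prod = x i
    rw [Equiv.apply_symm_apply, Sym.coe_cons, Multiset.map_cons, Multiset.prod_cons,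
      Sym.coe_replicate, Multiset.map_replicate, Multiset.prod_replicate, hj, one_pow, mul_one]
  exact (((Set.finite_univ).prod hT).image F).subset h1

end Pool.Agent.TRI
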